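import Pool.Agent.Helper26.UMDA.Asym

/-!
# The UMDA with a logarithmic population size is polynomial on OneMax

For every constant `c > 0` and all large `n` there are `1 ≤ mu ≤ lam ≤ c log n` such that the
UMDA with borders `1/n`, `1 - 1/n` and parameters `mu`, `lam` has expected optimization time
at most `n ^ 5` on OneMax, whatever tie-breaking is used.
-/

namespace Pool.Agent.Results.MP_dfb1a1_lc.UMDAPolynomial

open Pool.Agent.Helper26.UMDA

/-- A population: `lam` search points of length `n`. -/
abbrev Pop (n lam : ℕ) := Fin lam → Fin n → Bool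

/-- The past of a run: the earlier populations together with the selected sets of indices. -/
abbrev Past (n lam : ℕ) := List (Pop n lam × Finset (Fin lam))

/-- OneMax. -/
def oneMax {n : ℕ} (x : Fin n → Bool) : ℕ := (Finset.univ.filter fun i => x i = true).card

/-- Restriction to the interval `[1/n, 1 - 1/n]`. -/
noncomputable def restrict (n : ℕ) (q : ℝ) : ℝ := max (1 / n) (min (1 - 1 / n) q)

/-- Probability of sampling the search point `x` from the frequency vector `p`. -/
noncomputable def samplePr {n : ℕ} (p : Fin n → ℝ) (x : Fin n → Bool) : ℝ :=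
  ∏ i, (if x i = true then p i else 1 - p i)

/-- Probability of sampling the population `X` from the frequency vector `p`. -/
noncomputable def popPr {n lam : ℕ} (p : Fin n → ℝ) (X : Pop n lam) : ℝ :=
  ∏ j, samplePr p (X j)

/-- A selection rule: given the past and the current population, it chooses (possibly at
random, with probability `pr past X T`) a set `T` of `mu` samples with the largest OneMax
values. Ties may be broken arbitrarily. -/
structure Selection (n lam mu : ℕ) where
  /-- probability of selecting `T` -/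
  pr : Past n lam → Pop n lam → Finset (Fin lam) → ℝ
  nonneg : ∀ past X T, 0 ≤ pr past X T
  total : ∀ past X, ∑ T, pr past X T = 1
  best : ∀ past X T, pr past X T ≠ 0 →
    T.card = mu ∧ ∀ a ∈ T, ∀ b, b ∉ T → oneMax (X b) ≤ oneMax (X a)

/-- The new frequency vector: the fractions of ones among the selected samples, restricted to
the interval between the borders. -/
noncomputable def update {n lam : ℕ} (mu : ℕ) (T : Finset (Fin lam)) (X : Pop n lam) :
    Fin n → ℝ :=
  fun i => restrict n (((T.filter fun j => X j i = true).card : ℝ) / mu)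

/-- Probability that, starting with the frequency vector `p`, the all-ones string is neither
sampled in the first `g` generations nor among the first `r` samples of the next one. -/
noncomputable def missPr {n lam mu : ℕ} (sel : Selection n lam mu) (r : ℕ) :
    ℕ → Past n lam → (Fin n → ℝ) → ℝ
  | 0, _, p => ∑ X : Pop n lam, popPr p X *
      (if ∀ j : Fin lam, j.val < r → X j ≠ fun _ => true then 1 else 0)
  | g + 1, past, p => ∑ X : Pop n lam, popPr p X *
      (if ∀ j : Fin lam, X j ≠ fun _ => true then
        ∑ T, sel.pr past X T * missPr sel r g ((X, T) :: past) (update mu T X) else 0)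

/-- Probability that the optimization time exceeds `m`: the first `m` evaluated search points
are not the all-ones string. The initial frequencies are `1/2`. -/
noncomputable def tailPr {n lam mu : ℕ} (sel : Selection n lam mu) (m : ℕ) : ℝ :=
  missPr sel (m % lam) (m / lam) [] (fun _ => 1 / 2)

/-- Expected optimization time (number of evaluations until the all-ones string is sampled for
the first time), as the sum over `m` of the probabilities that it exceeds `m`. -/
noncomputable def expectedTime {n lam mu : ℕ} (sel : Selection n lam mu) : ENNReal :=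
  ∑' m, ENNReal.ofReal (tailPr sel m)

/-! ### Proof -/

variable {n lam mu J : ℕ} {s A : ℝ}

theorem update_eq (T : Finset (Fin lam)) (X : Pop n lam) :
    update mu T X = fr mu (cnt T X) := rfl

theorem popPr_eq (p : Fin n → ℝ) (X : Pop n lam) : popPr p X = pw p X := rfl

theorem update_valid (hn : 1 ≤ n) (T : Finset (Fin lam)) (X : Pop n lam) :
    Valid (update mu T X) := by
  rw [update_eq]
  exact fr_valid hn mu _

theorem missPr_nonneg (sel : Selection n lam mu) (hn : 1 ≤ n) (r g : ℕ) :
    ∀ (past : Past n lam) (p : Fin n → ℝ), Valid p → 0 ≤ missPr sel r g past p := by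
  induction g with
  | zero =>
    intro past p hp
    unfold missPr
    apply Finset.sum_nonneg
    intro X _
    apply mul_nonneg (pw_nonneg hp X)
    split_ifs <;> norm_num
  | succ g ih =>
    intro past p hp
    unfold missPr
    apply Finset.sum_nonneg
    intro X _
    apply mul_nonneg (pw_nonneg hp X)
    split_ifs
    · apply Finset.sum_nonneg
      intro T _
      exact mul_nonneg (sel.nonneg _ _ _) (ih _ _ (update_valid hn T X))
    · exact le_rfl

theorem missPr_mono (sel : Selection n lam mu) (hn : 1 ≤ n) (r g : ℕ) :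
    ∀ (past : Past n lam) (p : Fin n → ℝ), Valid p →
      missPr sel r g past p ≤ missPr sel 0 g past p := by
  induction g with
  | zero =>
    intro past p hp
    unfold missPr
    apply Finset.sum_le_sum
    intro X _
    apply mul_le_mul_of_nonneg_left _ (pw_nonneg hp X)
    have h1 : ∀ j : Fin lam, j.val < 0 → X j ≠ fun _ => true := by
      intro j hj
      exact absurd hj (Nat.not_lt_zero _)
    rw [if_pos h1]
    split_ifs <;> norm_num
  | succ g ih =>
    intro past p hp
    unfold missPr
    apply Finset.sum_le_sum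
    intro X _
    apply mul_le_mul_of_nonneg_left _ (pw_nonneg hp X)
    split_ifs
    · apply Finset.sum_le_sum
      intro T _
      exact mul_le_mul_of_nonneg_left (ih _ _ (update_valid hn T X)) (sel.nonneg _ _ _)
    · exact le_rfl

/-- the worst selection with respect to a function of the next state -/
theorem exists_worst (sel : Selection n lam mu) (past : Past n lam)
    (H : (Fin n → ℕ) → ℝ) : ∃ T : Pop n lam → Finset (Fin lam), (∀ X, IsBest mu X (T X)) ∧
      ∀ X T', IsBest mu X T' → H (cnt T' X) ≤ H (cnt (T X) X) := by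
  classical
  have h : ∀ X : Pop n lam, ∃ T, IsBest mu X T ∧
      ∀ T', IsBest mu X T' → H (cnt T' X) ≤ H (cnt T X) := by
    intro X
    have hne : (Finset.univ.filter fun T : Finset (Fin lam) => IsBest mu X T).Nonempty := by
      by_contra hcon
      rw [Finset.not_nonempty_iff_eq_empty, Finset.filter_eq_empty_iff] at hcon
      have h1 : ∑ T, sel.pr past X T = 0 := by
        apply Finset.sum_eq_zero
        intro T _
        by_contra h2
        exact hcon (Finset.mem_univ T) (sel.best past X T h2)
      rw [sel.total] at h1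
      exact one_ne_zero h1
    obtain ⟨T, hT, hmax⟩ := Finset.exists_max_image _ (fun T => H (cnt T X)) hne
    refine ⟨T, (Finset.mem_filter.mp hT).2, fun T' hT' => ?_⟩
    exact hmax T' (Finset.mem_filter.mpr ⟨Finset.mem_univ _, hT'⟩)
  choose T hT using h
  exact ⟨T, fun X => (hT X).1, fun X => (hT X).2⟩

theorem miss_top (h : Par n lam mu J s A) {k : Fin n → ℕ} (hk : ∀ i, k i = mu) :
    EP (fr mu k) (fun X : Pop n lam =>
      if ∀ j : Fin lam, X j ≠ fun _ => true then (1:ℝ) else 0) ≤ 7 / 8 := by
  have hp := h.valid k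
  have hlam := h.lampos
  set j0 : Fin lam := ⟨0, hlam⟩ with hj0
  have h1 : ∀ X : Pop n lam, (if ∀ j : Fin lam, X j ≠ fun _ => true then (1:ℝ) else 0) ≤
      1 - ∏ i, (if X j0 i = true then (1:ℝ) else 0) := by
    intro X
    have hle : ∏ i, (if X j0 i = true then (1:ℝ) else 0) ≤ 1 := by
      apply Finset.prod_le_one
      · intro i _; split_ifs <;> norm_num
      · intro i _; split_ifs <;> norm_num
    split_ifs with hX
    · have h2 : ∃ i, X j0 i ≠ true := by
        by_contra hcon
        push Not at hcon
        exact hX j0 (funext hcon)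
      obtain ⟨i, hi⟩ := h2
      rw [Finset.prod_eq_zero (Finset.mem_univ i) (by simp [hi])]
      norm_num
    · linarith
  refine (EP_mono hp h1).trans ?_
  rw [EP_sub, EP_const, EP_single (fr mu k) j0 (fun x => ∏ i, (if x i = true then (1:ℝ) else 0)),
    E1_prod (fr mu k) (fun _ b => if b = true then (1:ℝ) else 0)]
  have h2 : ∀ i, fr mu k i * (if true = true then (1:ℝ) else 0) +
      (1 - fr mu k i) * (if false = true then (1:ℝ) else 0) = 1 - 1 / n := by
    intro i
    rw [fr_mu h.hn h.mupos (hk i)]
    simp
  rw [Finset.prod_congr rfl (fun i _ => h2 i), Finset.prod_const, Finset.card_univ,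
    Fintype.card_fin]
  have hn := h.npos
  have h3 : Real.exp (-2) ≤ (1 - 1 / (n:ℝ)) ^ n := by
    have h4 := one_sub_ge_exp (z := 1 / (n:ℝ)) (by positivity) (inv_n_le h.hn)
    calc Real.exp (-2) = (Real.exp (-(2 * (1 / (n:ℝ))))) ^ n := by
          rw [← Real.exp_nat_mul]
          congr 1
          field_simp
      _ ≤ _ := pow_le_pow_left₀ (Real.exp_pos _).le h4 _
  have h5 : (1:ℝ) / 8 ≤ Real.exp (-2) := by
    rw [Real.exp_neg, one_div]
    apply inv_anti₀ (Real.exp_pos _)
    have h6 : Real.exp 2 = Real.exp 1 * Real.exp 1 := by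
      rw [← Real.exp_add]; norm_num
    have h7 := Real.exp_one_lt_d9
    have h8 := Real.exp_pos 1
    rw [h6]
    nlinarith
  linarith

/-- one generation decreases the potential of the expected remaining time -/
theorem one_step (h : Par n lam mu J s A) (sel : Selection n lam mu) (past : Past n lam)
    {k : Fin n → ℕ} (hk : ∀ i, k i ≤ mu) :
    ∑ X : Pop n lam, popPr (fr mu k) X *
      (if ∀ j : Fin lam, X j ≠ fun _ => true then
        ∑ T, sel.pr past X T * ((n:ℝ) ^ 3 * Phi lam s A J mu (cnt T X) + 16) else 0) ≤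
      (n:ℝ) ^ 3 * Phi lam s A J mu k + 15 := by
  classical
  have hp := h.valid k
  have hn := h.npos
  obtain ⟨T, hT, hmax⟩ := exists_worst sel past
    (fun k' => (n:ℝ) ^ 3 * Phi lam s A J mu k' + 16)
  have hworst : ∀ X : Pop n lam,
      ∑ T, sel.pr past X T * ((n:ℝ) ^ 3 * Phi lam s A J mu (cnt T X) + 16) ≤
      (n:ℝ) ^ 3 * Phi lam s A J mu (cnt (T X) X) + 16 := by
    intro X
    have h1 : ∑ T', sel.pr past X T' * ((n:ℝ) ^ 3 * Phi lam s A J mu (cnt T' X) + 16) ≤
        ∑ T', sel.pr past X T' * ((n:ℝ) ^ 3 * Phi lam s A J mu (cnt (T X) X) + 16) := by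
      apply Finset.sum_le_sum
      intro T' _
      by_cases h2 : sel.pr past X T' = 0
      · rw [h2, zero_mul, zero_mul]
      · exact mul_le_mul_of_nonneg_left (hmax X T' (sel.best past X T' h2)) (sel.nonneg _ _ _)
    rw [← Finset.sum_mul, sel.total, one_mul] at h1
    exact h1
  have hnn : ∀ X : Pop n lam, 0 ≤ (n:ℝ) ^ 3 * Phi lam s A J mu (cnt (T X) X) := by
    intro X
    exact mul_nonneg (by positivity) (Phi_nonneg _ _ _ _ (cnt_le (hT X).1 X))
  have hpoint : ∀ X : Pop n lam, (if ∀ j : Fin lam, X j ≠ fun _ => true then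
        ∑ T, sel.pr past X T * ((n:ℝ) ^ 3 * Phi lam s A J mu (cnt T X) + 16) else 0) ≤
      (n:ℝ) ^ 3 * Phi lam s A J mu (cnt (T X) X) +
      16 * (if ∀ j : Fin lam, X j ≠ fun _ => true then (1:ℝ) else 0) := by
    intro X
    split_ifs with hX
    · have := hworst X
      linarith
    · have := hnn X
      linarith
  have h1 : ∑ X : Pop n lam, popPr (fr mu k) X *
      (if ∀ j : Fin lam, X j ≠ fun _ => true then
        ∑ T, sel.pr past X T * ((n:ℝ) ^ 3 * Phi lam s A J mu (cnt T X) + 16) else 0) ≤
      EP (fr mu k) (fun X : Pop n lam => (n:ℝ) ^ 3 * Phi lam s A J mu (cnt (T X) X) +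
      16 * (if ∀ j : Fin lam, X j ≠ fun _ => true then (1:ℝ) else 0)) := by
    unfold EP
    apply Finset.sum_le_sum
    intro X _
    exact mul_le_mul_of_nonneg_left (hpoint X) (pw_nonneg hp X)
  refine h1.trans ?_
  rw [EP_add, EP_smul, EP_smul]
  by_cases hne : ∃ i, k i ≠ mu
  · have h2 := drift_all h hk hne T hT
    have h3 : EP (fr mu k) (fun X : Pop n lam =>
        if ∀ j : Fin lam, X j ≠ fun _ => true then (1:ℝ) else 0) ≤ 1 := by
      have h4 := EP_mono hp (F := fun X : Pop n lam =>
        if ∀ j : Fin lam, X j ≠ fun _ => true then (1:ℝ) else 0) (G := fun _ => 1)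
        (fun X => by split_ifs <;> norm_num)
      rw [EP_const] at h4
      exact h4
    have h5 : (n:ℝ) ^ 3 * EP (fr mu k) (fun X => Phi lam s A J mu (cnt (T X) X)) ≤
        (n:ℝ) ^ 3 * (Phi lam s A J mu k - 1 / (n:ℝ) ^ 3) :=
      mul_le_mul_of_nonneg_left h2 (by positivity)
    have h6 : (n:ℝ) ^ 3 * (Phi lam s A J mu k - 1 / (n:ℝ) ^ 3) =
        (n:ℝ) ^ 3 * Phi lam s A J mu k - 1 := by
      field_simp
    linarith
  · push Not at hne
    have h2 := drift_top h hne T hT
    have h3 := miss_top h hne
    have h5 : (n:ℝ) ^ 3 * EP (fr mu k) (fun X => Phi lam s A J mu (cnt (T X) X)) ≤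
        (n:ℝ) ^ 3 * (1 / (n:ℝ) ^ 3) :=
      mul_le_mul_of_nonneg_left h2 (by positivity)
    have h6 : (n:ℝ) ^ 3 * (1 / (n:ℝ) ^ 3) = 1 := by
      field_simp
    have h7 : 0 ≤ (n:ℝ) ^ 3 * Phi lam s A J mu k :=
      mul_nonneg (by positivity) (Phi_nonneg _ _ _ _ hk)
    linarith

/-- the expected number of generations -/
theorem gen_bound (h : Par n lam mu J s A) (sel : Selection n lam mu) (N : ℕ) :
    ∀ (past : Past n lam) (k : Fin n → ℕ), (∀ i, k i ≤ mu) →
      ∑ g ∈ Finset.range N, missPr sel 0 g past (fr mu k) ≤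
      (n:ℝ) ^ 3 * Phi lam s A J mu k + 16 := by
  have hn1 : 1 ≤ n := by have := h.hn; omega
  induction N with
  | zero =>
    intro past k hk
    have : 0 ≤ (n:ℝ) ^ 3 * Phi lam s A J mu k :=
      mul_nonneg (by positivity) (Phi_nonneg _ _ _ _ hk)
    simp
    linarith
  | succ N ih =>
    intro past k hk
    rw [Finset.sum_range_succ']
    have h0 : missPr sel 0 0 past (fr mu k) = 1 := by
      unfold missPr
      have h1 : ∀ X : Pop n lam, popPr (fr mu k) X *
        (if ∀ j : Fin lam, j.val < 0 → X j ≠ fun _ => true then (1:ℝ) else 0) = pw (fr mu k) X := by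
        intro X
        rw [if_pos (fun j hj => absurd hj (Nat.not_lt_zero _)), mul_one]
        rfl
      rw [Finset.sum_congr rfl (fun X _ => h1 X)]
      exact sum_pw (fr mu k)
    rw [h0]
    have h1 : ∑ g ∈ Finset.range N, missPr sel 0 (g + 1) past (fr mu k) =
        ∑ X : Pop n lam, popPr (fr mu k) X *
        (if ∀ j : Fin lam, X j ≠ fun _ => true then
          ∑ T, sel.pr past X T * ∑ g ∈ Finset.range N,
            missPr sel 0 g ((X, T) :: past) (update mu T X) else 0) := by
      simp only [missPr]
      rw [Finset.sum_comm]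
      apply Finset.sum_congr rfl
      intro X _
      rw [← Finset.mul_sum]
      congr 1
      split_ifs with hX
      · rw [Finset.sum_comm]
        apply Finset.sum_congr rfl
        intro T _
        rw [Finset.mul_sum]
      · simp
    rw [h1]
    have h2 : ∑ X : Pop n lam, popPr (fr mu k) X *
        (if ∀ j : Fin lam, X j ≠ fun _ => true then
          ∑ T, sel.pr past X T * ∑ g ∈ Finset.range N,
            missPr sel 0 g ((X, T) :: past) (update mu T X) else 0) ≤
        ∑ X : Pop n lam, popPr (fr mu k) X *
        (if ∀ j : Fin lam, X j ≠ fun _ => true then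
          ∑ T, sel.pr past X T * ((n:ℝ) ^ 3 * Phi lam s A J mu (cnt T X) + 16) else 0) := by
      apply Finset.sum_le_sum
      intro X _
      apply mul_le_mul_of_nonneg_left _ (pw_nonneg (h.valid k) X)
      split_ifs with hX
      · apply Finset.sum_le_sum
        intro T _
        by_cases h3 : sel.pr past X T = 0
        · rw [h3, zero_mul, zero_mul]
        · apply mul_le_mul_of_nonneg_left _ (sel.nonneg _ _ _)
          exact ih _ (cnt T X) (cnt_le (sel.best past X T h3).1 X)
      · exact le_rfl
    have h3 := one_step h sel past hk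
    linarith

theorem gen_bound_init (h : Par n lam mu J s A) (sel : Selection n lam mu) (N : ℕ)
    {p : Fin n → ℝ} (hp : Valid p) :
      ∑ g ∈ Finset.range N, missPr sel 0 g [] p ≤ (n:ℝ) ^ 4 + 17 := by
  have hn := h.npos
  cases N with
  | zero =>
    simp
    positivity
  | succ N =>
    rw [Finset.sum_range_succ']
    have h0 : missPr sel 0 0 [] p = 1 := by
      unfold missPr
      have h1 : ∀ X : Pop n lam, popPr p X *
        (if ∀ j : Fin lam, j.val < 0 → X j ≠ fun _ => true then (1:ℝ) else 0) = pw p X := by
        intro X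
        rw [if_pos (fun j hj => absurd hj (Nat.not_lt_zero _)), mul_one]
        rfl
      rw [Finset.sum_congr rfl (fun X _ => h1 X)]
      exact sum_pw p
    rw [h0]
    have h1 : ∑ g ∈ Finset.range N, missPr sel 0 (g + 1) [] p =
        ∑ X : Pop n lam, popPr p X *
        (if ∀ j : Fin lam, X j ≠ fun _ => true then
          ∑ T, sel.pr [] X T * ∑ g ∈ Finset.range N,
            missPr sel 0 g [(X, T)] (update mu T X) else 0) := by
      simp only [missPr]
      rw [Finset.sum_comm]
      apply Finset.sum_congr rfl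
      intro X _
      rw [← Finset.mul_sum]
      congr 1
      split_ifs with hX
      · rw [Finset.sum_comm]
        apply Finset.sum_congr rfl
        intro T _
        rw [Finset.mul_sum]
      · simp
    rw [h1]
    have h2 : ∑ X : Pop n lam, popPr p X *
        (if ∀ j : Fin lam, X j ≠ fun _ => true then
          ∑ T, sel.pr [] X T * ∑ g ∈ Finset.range N,
            missPr sel 0 g [(X, T)] (update mu T X) else 0) ≤
        ∑ X : Pop n lam, popPr p X * ((n:ℝ) ^ 4 + 16) := by
      apply Finset.sum_le_sum
      intro X _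
      apply mul_le_mul_of_nonneg_left _ (pw_nonneg hp X)
      split_ifs with hX
      · have h4 : ∑ T, sel.pr [] X T * ∑ g ∈ Finset.range N,
            missPr sel 0 g [(X, T)] (update mu T X) ≤
            ∑ T, sel.pr [] X T * ((n:ℝ) ^ 4 + 16) := by
          apply Finset.sum_le_sum
          intro T _
          by_cases h3 : sel.pr [] X T = 0
          · rw [h3, zero_mul, zero_mul]
          · apply mul_le_mul_of_nonneg_left _ (sel.nonneg _ _ _)
            have hle := cnt_le (sel.best [] X T h3).1 X
            refine (gen_bound h sel N _ (cnt T X) hle).trans ?_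
            have h5 : Phi lam s A J mu (cnt T X) ≤ n :=
              (Phi_le_Zt lam s A J hle).trans (Zt_le mu _)
            have h6 : (n:ℝ) ^ 3 * Phi lam s A J mu (cnt T X) ≤ (n:ℝ) ^ 3 * n :=
              mul_le_mul_of_nonneg_left h5 (by positivity)
            have h7 : (n:ℝ) ^ 3 * n = (n:ℝ) ^ 4 := by ring
            linarith
        rw [← Finset.sum_mul, sel.total, one_mul] at h4
        exact h4
      · positivity
    have h3 : ∑ X : Pop n lam, popPr p X * ((n:ℝ) ^ 4 + 16) = (n:ℝ) ^ 4 + 16 := by
      rw [← Finset.sum_mul]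
      have : ∑ X : Pop n lam, popPr p X = 1 := sum_pw p
      rw [this, one_mul]
    linarith

theorem half_valid : Valid (fun _ : Fin n => (1:ℝ) / 2) := by
  intro i
  constructor <;> norm_num

theorem tail_sum (h : Par n lam mu J s A) (sel : Selection n lam mu) (N : ℕ) :
    ∑ m ∈ Finset.range (lam * N), tailPr sel m ≤
      lam * ∑ g ∈ Finset.range N, missPr sel 0 g [] (fun _ => 1 / 2) := by
  have hn1 : 1 ≤ n := by have := h.hn; omega
  induction N with
  | zero => simp
  | succ N ih =>
    rw [Nat.mul_succ, Finset.sum_range_add, Finset.sum_range_succ, mul_add]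
    have h1 : ∑ x ∈ Finset.range lam, tailPr sel (lam * N + x) ≤
        ∑ _x ∈ Finset.range lam, missPr sel 0 N [] (fun _ => 1 / 2) := by
      apply Finset.sum_le_sum
      intro x hx
      rw [Finset.mem_range] at hx
      unfold tailPr
      have h2 : (lam * N + x) / lam = N := by
        rw [Nat.mul_add_div h.lampos, Nat.div_eq_of_lt hx, add_zero]
      rw [h2]
      exact missPr_mono sel hn1 _ _ _ _ half_valid
    rw [Finset.sum_const, Finset.card_range, nsmul_eq_mul] at h1
    linarith

theorem expectedTime_le (h : Par n lam mu J s A) (sel : Selection n lam mu)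
    (hlam : (lam : ℝ) ≤ n - 1) : expectedTime sel ≤ (n : ENNReal) ^ 5 := by
  have hn := h.npos
  have hn1 : 1 ≤ n := by have := h.hn; omega
  have hn4 : (4:ℝ) ≤ n := by exact_mod_cast h.hn
  have htnn : ∀ m, 0 ≤ tailPr sel m := fun m => missPr_nonneg sel hn1 _ _ _ _ half_valid
  have hreal : ∀ N, ∑ m ∈ Finset.range N, tailPr sel m ≤ (n:ℝ) ^ 5 := by
    intro N
    have h1 : ∑ m ∈ Finset.range N, tailPr sel m ≤
        ∑ m ∈ Finset.range (lam * N), tailPr sel m := by
      apply Finset.sum_le_sum_of_subset_of_nonneg
      · intro m hm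
        rw [Finset.mem_range] at hm ⊢
        have := h.lampos
        nlinarith
      · intro m _ _
        exact htnn m
    refine h1.trans ((tail_sum h sel N).trans ?_)
    have h2 := gen_bound_init h sel N (p := fun _ => 1 / 2) half_valid
    have h3 : (lam:ℝ) * ∑ g ∈ Finset.range N, missPr sel 0 g [] (fun _ => 1 / 2) ≤
        (n - 1) * ((n:ℝ) ^ 4 + 17) := by
      apply mul_le_mul hlam h2 _ (by linarith)
      apply Finset.sum_nonneg
      intro g _
      exact missPr_nonneg sel hn1 _ _ _ _ half_valid
    refine h3.trans ?_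
    have h4 : (17:ℝ) * n ≤ (n:ℝ) ^ 4 := by
      have : (64:ℝ) ≤ (n:ℝ) ^ 3 := by
        calc (64:ℝ) = 4 ^ 3 := by norm_num
          _ ≤ (n:ℝ) ^ 3 := pow_le_pow_left₀ (by norm_num) hn4 3
      calc (17:ℝ) * n ≤ (n:ℝ) ^ 3 * n := mul_le_mul_of_nonneg_right (by linarith) hn.le
        _ = (n:ℝ) ^ 4 := by ring
    nlinarith
  unfold expectedTime
  apply ENNReal.tsum_le_of_sum_range_le
  intro N
  rw [← ENNReal.ofReal_sum_of_nonneg (fun m _ => htnn m)]
  have h5 : (n : ENNReal) ^ 5 = ENNReal.ofReal ((n:ℝ) ^ 5) := by
    rw [ENNReal.ofReal_pow hn.le, ENNReal.ofReal_natCast]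
  rw [h5]
  exact ENNReal.ofReal_le_ofReal (hreal N)

/-- There is always a set of `mu` best samples. -/
theorem exists_best {mu : ℕ} (hmu : mu ≤ lam) (X : Pop n lam) :
    ∃ T : Finset (Fin lam), T.card = mu ∧
      ∀ a ∈ T, ∀ b, b ∉ T → oneMax (X b) ≤ oneMax (X a) := by
  classical
  have hne : (Finset.powersetCard mu (Finset.univ : Finset (Fin lam))).Nonempty := by
    rw [Finset.powersetCard_nonempty]
    simpa using hmu
  obtain ⟨T, hT, hmax⟩ := Finset.exists_max_image _ (fun T => ∑ j ∈ T, oneMax (X j)) hne
  rw [Finset.mem_powersetCard] at hT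
  refine ⟨T, hT.2, fun a ha b hb => ?_⟩
  by_contra hcon
  push Not at hcon
  have hbe : b ∉ T.erase a := fun h' => hb (Finset.mem_of_mem_erase h')
  have hcard : (insert b (T.erase a)).card = mu := by
    rw [Finset.card_insert_of_notMem hbe, Finset.card_erase_of_mem ha, hT.2]
    have : 0 < T.card := Finset.card_pos.mpr ⟨a, ha⟩
    omega
  have h1 := hmax (insert b (T.erase a)) (by
    rw [Finset.mem_powersetCard]
    exact ⟨Finset.subset_univ _, hcard⟩)
  rw [Finset.sum_insert hbe] at h1
  have h2 := Finset.add_sum_erase T (fun j => oneMax (X j)) ha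
  omega

/-- Selection rules exist. -/
theorem selection_nonempty {n lam mu : ℕ} (hmu : mu ≤ lam) : Nonempty (Selection n lam mu) := by
  classical
  choose T hT using fun X : Pop n lam => exists_best hmu X
  refine ⟨{ pr := fun _ X T' => if T' = T X then 1 else 0, nonneg := ?_, total := ?_, best := ?_ }⟩
  · intro past X T'
    split_ifs <;> norm_num
  · intro past X
    simp
  · intro past X T' h
    have h1 : T' = T X := by
      by_contra h2
      exact h (if_neg h2)
    rw [h1]
    exact hT X

/-- For every `c > 0` and all large `n` there are `1 ≤ mu ≤ lam ≤ c log n` such that, for every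
way of breaking ties, the UMDA with these parameters has expected optimization time at most
`n ^ 5` on OneMax. -/
theorem result (c : ℝ) (hc : 0 < c) : ∃ n₀ : ℕ, ∀ n : ℕ, n₀ ≤ n →
    ∃ lam mu : ℕ, 1 ≤ mu ∧ mu ≤ lam ∧ (lam : ℝ) ≤ c * Real.log n ∧
      Nonempty (Selection n lam mu) ∧
      ∀ sel : Selection n lam mu, expectedTime sel ≤ (n : ENNReal) ^ 5 := by
  have hc' : 0 < min c 1 := lt_min hc one_pos
  obtain ⟨s, A, J, n0, hpar⟩ := exists_par hc' (min_le_right c 1)
  refine ⟨n0, fun n hn => ?_⟩
  have h := hpar n hn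
  set lam : ℕ := ⌊min c 1 * Real.log n⌋₊ with hlam
  set mu : ℕ := ⌊p0 / 8 * (lam : ℝ)⌋₊ with hmu
  have hn4 : (4:ℝ) ≤ n := by exact_mod_cast h.hn
  have hlog : 0 ≤ Real.log n := Real.log_nonneg (by linarith)
  have h1 : (lam : ℝ) ≤ min c 1 * Real.log n := Nat.floor_le (by positivity)
  have h2 : min c 1 * Real.log n ≤ c * Real.log n :=
    mul_le_mul_of_nonneg_right (min_le_left c 1) hlog
  have h3 : min c 1 * Real.log n ≤ 1 * Real.log n :=
    mul_le_mul_of_nonneg_right (min_le_right c 1) hlog
  have h4 : Real.log n ≤ n - 1 := Real.log_le_sub_one_of_pos (by linarith)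
  have h5 : mu ≤ lam := by
    have h6 := h.hml
    have h7 := p0_le
    have h8 : (0:ℝ) ≤ lam := Nat.cast_nonneg _
    have h9 : (mu : ℝ) ≤ lam := by nlinarith
    exact_mod_cast h9
  refine ⟨lam, mu, ?_, h5, h1.trans h2, selection_nonempty h5, fun sel => ?_⟩
  · have := h.hmu
    omega
  · exact expectedTime_le h sel (by linarith)

end Pool.Agent.Results.MP_dfb1a1_lc.UMDAPolynomial
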